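import Pool.Agent.N405.DA.Core

set_option autoImplicit false

/-! The denominators of the convergents of real numbers keep away from sets with a power saving (helper405). -/

namespace Pool.Agent.N405.DA

open Finset Filter Topology Classical
open scoped ENNReal

/-- the elements of `B` among the denominators of the convergents of the continued fraction of `α` (the indices) -/
def BadConvergents (B : Set ℕ) (α : ℝ) : Set ℕ := {n | ∃ q ∈ B, (GenContFract.of α).dens n = (q : ℝ)}

lemma int_conts (v : ℝ) (n : ℕ) : ∃ a b : ℤ, (GenContFract.of v).contsAux n = ⟨(a : ℝ), (b : ℝ)⟩ := by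
  induction n using Nat.strong_induction_on with
  | _ n ih =>
    match n with
    | 0 => exact ⟨1, 0, by simp⟩
    | 1 => exact ⟨⌊v⌋, 1, by simp [GenContFract.of_h_eq_floor]⟩
    | n + 2 =>
      obtain ⟨a0, b0, h0⟩ := ih n (by omega)
      obtain ⟨a1, b1, h1⟩ := ih (n + 1) (by omega)
      rcases hs : (GenContFract.of v).s.get? n with _ | gp
      · have h2 : (GenContFract.of v).contsAux (n + 2) = (GenContFract.of v).contsAux (n + 1) :=
          GenContFract.contsAux_stable_step_of_terminated hs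
        exact ⟨a1, b1, by rw [h2, h1]⟩
      · obtain ⟨hgpa, z, hz⟩ := GenContFract.of_partNum_eq_one_and_exists_int_partDen_eq hs
        refine ⟨z * a1 + a0, z * b1 + b0, ?_⟩
        rw [GenContFract.contsAux_recurrence hs h0 h1, hgpa, hz]
        push_cast
        simp

lemma not_terminated {v : ℝ} (hv : Irrational v) (n : ℕ) : ¬ (GenContFract.of v).TerminatedAt n := by
  intro h
  obtain ⟨q, hq⟩ := (GenContFract.terminates_iff_rat v).1 ⟨n, h⟩
  exact hv ⟨q, hq.symm⟩

lemma fib_le {v : ℝ} (hv : Irrational v) (n : ℕ) : (Nat.fib (n + 1) : ℝ) ≤ (GenContFract.of v).dens n :=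
  GenContFract.succ_nth_fib_le_of_nth_den (Or.inr (not_terminated hv _))

lemma close_of_conv {v : ℝ} (hv : Irrational v) {n q : ℕ} (h : (GenContFract.of v).dens n = (q : ℝ)) :
    q ∈ Close 1 1 v 0 := by
  obtain ⟨a, b, hab⟩ := int_conts v (n + 1)
  have hnum : (GenContFract.of v).nums n = a := by
    rw [GenContFract.num_eq_conts_a, GenContFract.nth_cont_eq_succ_nth_contAux, hab]
  have hq1 : (1 : ℝ) ≤ q := by
    have h1 := fib_le hv n
    rw [h] at h1
    have h2 : 1 ≤ Nat.fib (n + 1) := Nat.fib_pos.2 (by omega)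
    have h3 : (1 : ℝ) ≤ (Nat.fib (n + 1) : ℝ) := by exact_mod_cast h2
    linarith
  have hq0 : (0 : ℝ) < q := by linarith
  have h1 := GenContFract.abs_sub_convs_le (not_terminated hv n)
  rw [GenContFract.conv_eq_num_div_den, hnum, h] at h1
  have h2 : (q : ℝ) ≤ (GenContFract.of v).dens (n + 1) := by
    rw [← h]
    exact GenContFract.of_den_mono
  refine ⟨a, ?_⟩
  have h3 : |v - a / q| ≤ 1 / ((q : ℝ) * q) :=
    h1.trans (one_div_le_one_div_of_le (by positivity) (mul_le_mul_of_nonneg_left h2 hq0.le))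
  have e : v * (q : ℝ) ^ 1 - a - 0 = (v - a / q) * q := by
    field_simp
    ring
  rw [e, abs_mul, abs_of_pos hq0, Real.rpow_neg_one]
  calc |v - a / q| * q ≤ 1 / ((q : ℝ) * q) * q := mul_le_mul_of_nonneg_right h3 hq0.le
    _ = (q : ℝ)⁻¹ := by field_simp

/-- The set of the real numbers with infinitely many convergents whose denominator is in `B` has dimension at most
`(1 + σ) / 2`. -/
theorem dim_convergents {B : Set ℕ} {σ : ℝ} (hσ : 0 ≤ σ) (hσ1 : σ < 1) (hB : Sparse B σ) :
    dimH {α : ℝ | (BadConvergents B α).Infinite} ≤ ENNReal.ofReal ((1 + σ) / 2) := by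
  have hmain := dim_close hσ hB hσ1 (le_refl 1) (Set.countable_singleton (0 : ℝ))
  have e1 : ((1 : ℕ) + σ) / ((1 : ℕ) + 1 : ℝ) = (1 + σ) / 2 := by
    push_cast
    norm_num
  rw [e1] at hmain
  have hsub : {α : ℝ | (BadConvergents B α).Infinite} ⊆
      Set.range ((↑) : ℚ → ℝ) ∪ {α : ℝ | ∃ γ ∈ ({0} : Set ℝ), (Close 1 1 α γ ∩ B).Infinite} := by
    intro α hα
    by_cases hr : Irrational α
    · right
      refine ⟨0, rfl, fun hfin => hα ?_⟩
      obtain ⟨Q, hQ⟩ := hfin.bddAbove
      have h1 : ∃ m : ℕ, ∀ n : ℕ, m ≤ n → Q < Nat.fib (n + 1) := by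
        refine ⟨Q + 5, fun n hn => ?_⟩
        have h2 : n + 1 ≤ Nat.fib (n + 1) := Nat.le_fib_self (by omega)
        omega
      obtain ⟨m, hm⟩ := h1
      refine (Set.finite_Iio m).subset fun n hn => ?_
      obtain ⟨q, hqB, hq⟩ := hn
      have h2 : q ≤ Q := hQ ⟨close_of_conv hr hq, hqB⟩
      have h3 := fib_le hr n
      rw [hq] at h3
      have h4 : Nat.fib (n + 1) ≤ q := by exact_mod_cast h3
      by_contra hcon
      have h5 := hm n (not_lt.1 hcon)
      omega
    · left
      unfold Irrational at hr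
      push Not at hr
      exact hr
  refine (dimH_mono hsub).trans ?_
  rw [dimH_union]
  exact max_le (by rw [dimH_countable (Set.countable_range _)]; exact bot_le) hmain

/-- The two theorems together. -/
theorem main {B : Set ℕ} {σ : ℝ} (hσ : 0 ≤ σ) (hσ1 : σ < 1) (hB : Sparse B σ) :
    (∀ k : ℕ, 1 ≤ k → ∀ s : ℝ, σ < s → ∀ Γ : Set ℝ, Γ.Countable →
      dimH {α : ℝ | ∃ γ ∈ Γ, (Close k s α γ ∩ B).Infinite} ≤ ENNReal.ofReal ((k + σ) / (k + s))) ∧
    dimH {α : ℝ | (BadConvergents B α).Infinite} ≤ ENNReal.ofReal ((1 + σ) / 2) :=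
  ⟨fun _ hk _ hs _ hΓ => dim_close hσ hB hs hk hΓ, dim_convergents hσ hσ1 hB⟩

end Pool.Agent.N405.DA
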