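import Mathlib
import Pool.Agent.V11001.KM.Basic

set_option autoImplicit false

/-! Good approximations to real numbers keep away from sets with a power saving (helper405): the real numbers `α` for which
infinitely many elements `q` of a set `B` with at most `C X ^ (σ + ε)` elements up to `X` satisfy `‖α q ^ k - γ‖ ≤ q ^ (-s)`
form a set of Hausdorff dimension at most `(k + σ) / (k + s)`, which is less than one for `s > σ`. -/

namespace Pool.Agent.N405.DA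

open Finset Filter Topology Classical
open scoped ENNReal

/-- `B` has at most `C X ^ (σ + ε)` elements up to `X` -/
def Sparse (B : Set ℕ) (σ : ℝ) : Prop :=
  ∀ ε : ℝ, 0 < ε → ∃ C : ℝ, ∀ X : ℕ, 1 ≤ X → ({q : ℕ | 1 ≤ q ∧ q ≤ X ∧ q ∈ B}.ncard : ℝ) ≤ C * (X : ℝ) ^ (σ + ε)

/-- the `q` such that `α q ^ k - γ` is at distance at most `q ^ (-s)` from an integer -/
def Close (k : ℕ) (s α γ : ℝ) : Set ℕ := {q | ∃ a : ℤ, |α * (q : ℝ) ^ k - a - γ| ≤ (q : ℝ) ^ (-s)}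

lemma window_of_close {k : ℕ} {s α γ : ℝ} {q j : ℕ} {a : ℤ} (hks : 0 ≤ s + k) (hq : 2 ^ j ≤ q)
    (h : |α * (q : ℝ) ^ k - a - γ| ≤ (q : ℝ) ^ (-s)) :
    |α - (a + γ) / (q : ℝ) ^ k| ≤ ((2 : ℝ) ^ j) ^ (-(s + k)) := by
  have hq0 : (0 : ℝ) < q := by
    have : 0 < q := lt_of_lt_of_le (by positivity) hq
    exact_mod_cast this
  have hqk : (0 : ℝ) < (q : ℝ) ^ k := by positivity
  have e1 : α - (a + γ) / (q : ℝ) ^ k = (α * (q : ℝ) ^ k - a - γ) / (q : ℝ) ^ k := by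
    field_simp
    ring
  rw [e1, abs_div, abs_of_pos hqk, div_le_iff₀ hqk]
  refine h.trans ?_
  have hqj : ((2 : ℝ) ^ j) ≤ q := by exact_mod_cast hq
  have h2 : (q : ℝ) ^ (-(s + k)) ≤ ((2 : ℝ) ^ j) ^ (-(s + k)) :=
    Real.rpow_le_rpow_of_nonpos (by positivity) hqj (by linarith)
  calc (q : ℝ) ^ (-s) = (q : ℝ) ^ (-(s + k)) * (q : ℝ) ^ k := by
        rw [← Real.rpow_natCast, ← Real.rpow_add hq0]
        congr 1
        ring
    _ ≤ ((2 : ℝ) ^ j) ^ (-(s + k)) * (q : ℝ) ^ k := mul_le_mul_of_nonneg_right h2 hqk.le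

theorem dim_bounded {B : Set ℕ} {σ s : ℝ} (hσ : 0 ≤ σ) (hB : Sparse B σ) (hs : σ < s) {k : ℕ} (hk : 1 ≤ k) (M : ℕ) (γ : ℝ)
    {D : ℝ} (hD : (k + σ) / (k + s) < D) :
    dimH {α : ℝ | |α| ≤ M ∧ (Close k s α γ ∩ B).Infinite} ≤ ENNReal.ofReal D := by
  have hk1 : (1 : ℝ) ≤ k := by exact_mod_cast hk
  have hks : 0 < k + s := by linarith
  have hD0 : 0 < D := lt_of_le_of_lt (by positivity) hD
  rw [div_lt_iff₀ hks] at hD
  obtain ⟨ε, hε, hεD⟩ : ∃ ε : ℝ, 0 < ε ∧ k + σ + ε < D * (k + s) := ⟨(D * (k + s) - (k + σ)) / 2, by linarith, by linarith⟩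
  obtain ⟨C, hC⟩ := hB ε hε
  obtain ⟨N, hN⟩ : ∃ N : ℕ, (M : ℝ) + |γ| + 1 ≤ N := exists_nat_ge _
  set U : ℕ → Finset (ℕ × ℤ) := fun j =>
    ((Finset.Icc 1 (2 ^ (j + 1))).filter (fun q => q ∈ B)) ×ˢ
      (Finset.Icc (-((N * 2 ^ ((j + 1) * k) : ℕ) : ℤ)) ((N * 2 ^ ((j + 1) * k) : ℕ) : ℤ)) with hU
  set r : ℕ → ℝ := fun j => 2 * ((2 : ℝ) ^ j) ^ (-(s + k)) with hr
  set W : ℕ → ℕ × ℤ → Set ℝ := fun j t =>
    Set.Icc ((t.2 + γ) / (t.1 : ℝ) ^ k - ((2 : ℝ) ^ j) ^ (-(s + k))) ((t.2 + γ) / (t.1 : ℝ) ^ k + ((2 : ℝ) ^ j) ^ (-(s + k)))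
    with hW
  have hrp : ∀ n, 0 < r n := fun n => by positivity
  have hpow : ∀ (y : ℝ) (j : ℕ), ((2 : ℝ) ^ j) ^ y = ((2 : ℝ) ^ y) ^ j := by
    intro y j
    rw [← Real.rpow_natCast, ← Real.rpow_mul (by norm_num), ← Real.rpow_natCast, ← Real.rpow_mul (by norm_num), mul_comm]
  have key := Pool.Agent.V11001.KM.dim_cover U W r hD0 hrp ?_ ?_ ?_
  · refine le_trans (dimH_mono ?_) key
    rintro α ⟨hα, hinf⟩ n1
    obtain ⟨q, ⟨⟨a, ha⟩, hqB⟩, hq⟩ := hinf.exists_gt (2 ^ n1)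
    have hq0 : q ≠ 0 := by
      have : 0 < 2 ^ n1 := by positivity
      omega
    have hq1 : (1 : ℝ) ≤ q := by exact_mod_cast Nat.one_le_iff_ne_zero.2 hq0
    have hj1 : 2 ^ Nat.log 2 q ≤ q := Nat.pow_log_le_self 2 hq0
    have hj2 : q < 2 ^ (Nat.log 2 q + 1) := Nat.lt_pow_succ_log_self (by norm_num) q
    refine ⟨Nat.log 2 q, ?_, (q, a), ?_, ?_⟩
    · exact Nat.le_log_of_pow_le (by norm_num) hq.le
    · rw [hU]
      simp only [mem_product, mem_filter, Finset.mem_Icc]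
      refine ⟨⟨⟨Nat.one_le_iff_ne_zero.2 hq0, hj2.le⟩, hqB⟩, ?_⟩
      have h1 : (q : ℝ) ^ (-s) ≤ 1 := Real.rpow_le_one_of_one_le_of_nonpos hq1 (by linarith)
      have hqk1 : (1 : ℝ) ≤ (q : ℝ) ^ k := one_le_pow₀ hq1
      have h2 : |(a : ℝ)| ≤ N * (q : ℝ) ^ k := by
        have e : (a : ℝ) = α * (q : ℝ) ^ k - γ - (α * (q : ℝ) ^ k - a - γ) := by ring
        calc |(a : ℝ)| ≤ |α * (q : ℝ) ^ k - γ| + |α * (q : ℝ) ^ k - a - γ| := by
              conv_lhs => rw [e]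
              exact abs_sub _ _
          _ ≤ (|α * (q : ℝ) ^ k| + |γ|) + 1 := add_le_add (abs_sub _ _) (ha.trans h1)
          _ ≤ (M * (q : ℝ) ^ k + |γ| * (q : ℝ) ^ k) + 1 * (q : ℝ) ^ k := by
              rw [abs_mul, abs_of_nonneg (by positivity : (0 : ℝ) ≤ (q : ℝ) ^ k)]
              have e1 : |α| * (q : ℝ) ^ k ≤ M * (q : ℝ) ^ k := mul_le_mul_of_nonneg_right hα (by positivity)
              have e2 : |γ| ≤ |γ| * (q : ℝ) ^ k := le_mul_of_one_le_right (abs_nonneg _) hqk1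
              linarith
          _ = (M + |γ| + 1) * (q : ℝ) ^ k := by ring
          _ ≤ N * (q : ℝ) ^ k := mul_le_mul_of_nonneg_right hN (by positivity)
      have h3 : |(a : ℝ)| ≤ ((N * 2 ^ ((Nat.log 2 q + 1) * k) : ℕ) : ℝ) := by
        refine h2.trans ?_
        push_cast
        apply mul_le_mul_of_nonneg_left _ (Nat.cast_nonneg _)
        rw [pow_mul]
        apply pow_le_pow_left₀ (by positivity)
        exact_mod_cast hj2.le
      have h4 := abs_le.1 h3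
      constructor
      · exact_mod_cast h4.1
      · exact_mod_cast h4.2
    · have h5 := window_of_close (by linarith) hj1 ha
      rw [abs_le] at h5
      rw [hW]
      simp only [Set.mem_Icc]
      constructor <;> linarith [h5.1, h5.2]
  · have h1 : r = fun j => 2 * ((2 : ℝ) ^ (-(s + k))) ^ j := by
      funext j
      rw [hr]
      simp only
      rw [hpow]
    rw [h1]
    have h2 : Tendsto (fun j : ℕ => ((2 : ℝ) ^ (-(s + k))) ^ j) atTop (𝓝 0) :=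
      tendsto_pow_atTop_nhds_zero_of_lt_one (by positivity)
        (Real.rpow_lt_one_of_one_lt_of_neg (by norm_num) (by linarith))
    simpa using h2.const_mul 2
  · intro j t _
    rw [hW, hr]
    simp only
    rw [Real.ediam_Icc]
    apply ENNReal.ofReal_le_ofReal
    linarith
  · have hcard : ∀ j : ℕ, ((U j).card : ℝ) ≤
        (|C| * ((2 : ℝ) ^ (j + 1)) ^ (σ + ε)) * ((2 * N + 1) * ((2 : ℝ) ^ (j + 1)) ^ k) := by
      intro j
      have h1 : ((U j).card : ℝ) = (((Finset.Icc 1 (2 ^ (j + 1))).filter (fun q => q ∈ B)).card : ℝ) *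
          ((Finset.Icc (-((N * 2 ^ ((j + 1) * k) : ℕ) : ℤ)) ((N * 2 ^ ((j + 1) * k) : ℕ) : ℤ)).card : ℝ) := by
        rw [hU]
        simp only
        rw [card_product]
        push_cast
        rfl
      rw [h1]
      have h2 : (((Finset.Icc 1 (2 ^ (j + 1))).filter (fun q => q ∈ B)).card : ℝ) ≤ |C| * ((2 : ℝ) ^ (j + 1)) ^ (σ + ε) := by
        have h3 := hC (2 ^ (j + 1)) Nat.one_le_two_pow
        have h4 : {q : ℕ | 1 ≤ q ∧ q ≤ 2 ^ (j + 1) ∧ q ∈ B} =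
            (((Finset.Icc 1 (2 ^ (j + 1))).filter (fun q => q ∈ B) : Finset ℕ) : Set ℕ) := by
          ext q
          simp [and_assoc]
        rw [h4, Set.ncard_coe_finset] at h3
        push_cast at h3
        exact h3.trans (mul_le_mul_of_nonneg_right (le_abs_self _) (by positivity))
      have h5 : ((Finset.Icc (-((N * 2 ^ ((j + 1) * k) : ℕ) : ℤ)) ((N * 2 ^ ((j + 1) * k) : ℕ) : ℤ)).card : ℝ) ≤
          (2 * N + 1) * ((2 : ℝ) ^ (j + 1)) ^ k := by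
        rw [Int.card_Icc]
        have h6 : ((((N * 2 ^ ((j + 1) * k) : ℕ) : ℤ) + 1 - -((N * 2 ^ ((j + 1) * k) : ℕ) : ℤ)).toNat) =
            2 * (N * 2 ^ ((j + 1) * k)) + 1 := by omega
        rw [h6]
        push_cast
        rw [pow_mul]
        have h7 : (1 : ℝ) ≤ ((2 : ℝ) ^ (j + 1)) ^ k := one_le_pow₀ (one_le_pow₀ (by norm_num))
        nlinarith
      exact mul_le_mul h2 h5 (Nat.cast_nonneg _) (by positivity)
    obtain ⟨K, hK⟩ : ∃ K : ℝ, K = |C| * (2 : ℝ) ^ (σ + ε) * ((2 * N + 1) * (2 : ℝ) ^ k) * (2 : ℝ) ^ D := ⟨_, rfl⟩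
    obtain ⟨ρ, hρ⟩ : ∃ ρ : ℝ, ρ = (2 : ℝ) ^ (k + σ + ε - D * (k + s)) := ⟨_, rfl⟩
    have hρ0 : 0 ≤ ρ := by rw [hρ]; positivity
    have hρ1 : ρ < 1 := by
      rw [hρ]
      exact Real.rpow_lt_one_of_one_lt_of_neg (by norm_num) (by linarith)
    refine Summable.of_nonneg_of_le (fun j => by positivity) (fun j => ?_)
      ((summable_geometric_of_lt_one hρ0 hρ1).mul_left K)
    calc ((U j).card : ℝ) * (r j) ^ D ≤
        ((|C| * ((2 : ℝ) ^ (j + 1)) ^ (σ + ε)) * ((2 * N + 1) * ((2 : ℝ) ^ (j + 1)) ^ k)) * (r j) ^ D :=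
          mul_le_mul_of_nonneg_right (hcard j) (Real.rpow_nonneg (hrp j).le _)
      _ = K * ρ ^ j := by
          rw [hK, hρ, hr]
          simp only
          have e1 : ((2 : ℝ) ^ (j + 1)) ^ (σ + ε) = ((2 : ℝ) ^ (σ + ε)) ^ j * (2 : ℝ) ^ (σ + ε) := by
            rw [hpow, pow_succ]
          have e2 : ((2 : ℝ) ^ (j + 1)) ^ k = ((2 : ℝ) ^ (k : ℝ)) ^ j * (2 : ℝ) ^ k := by
            rw [Real.rpow_natCast, ← pow_mul, ← pow_mul, ← pow_add]
            congr 1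
            ring
          have e3 : (2 * ((2 : ℝ) ^ j) ^ (-(s + k))) ^ D = (2 : ℝ) ^ D * ((2 : ℝ) ^ (-(D * (k + s)))) ^ j := by
            rw [Real.mul_rpow (by norm_num) (by positivity), ← Real.rpow_mul (by positivity), hpow]
            congr 3
            ring
          have e4 : (2 : ℝ) ^ (k + σ + ε - D * (k + s)) =
              (2 : ℝ) ^ (σ + ε) * (2 : ℝ) ^ (k : ℝ) * (2 : ℝ) ^ (-(D * (k + s))) := by
            rw [← Real.rpow_add (by norm_num), ← Real.rpow_add (by norm_num)]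
            congr 1
            ring
          rw [e1, e2, e3, e4, mul_pow, mul_pow]
          ring

theorem dim_one {B : Set ℕ} {σ s : ℝ} (hσ : 0 ≤ σ) (hB : Sparse B σ) (hs : σ < s) {k : ℕ} (hk : 1 ≤ k) (γ : ℝ) :
    dimH {α : ℝ | (Close k s α γ ∩ B).Infinite} ≤ ENNReal.ofReal ((k + σ) / (k + s)) := by
  have hk1 : (1 : ℝ) ≤ k := by exact_mod_cast hk
  have hnn : 0 ≤ (k + σ) / (k + s) := by
    apply div_nonneg <;> linarith
  have h1 : {α : ℝ | (Close k s α γ ∩ B).Infinite} ⊆ ⋃ M : ℕ, {α : ℝ | |α| ≤ M ∧ (Close k s α γ ∩ B).Infinite} := by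
    intro α hα
    obtain ⟨M, hM⟩ := exists_nat_ge |α|
    exact Set.mem_iUnion.2 ⟨M, hM, hα⟩
  refine (dimH_mono h1).trans ?_
  rw [dimH_iUnion]
  refine iSup_le fun M => ?_
  refine le_of_forall_gt_imp_ge_of_dense fun b hb => ?_
  rcases eq_or_ne b ⊤ with rfl | hbt
  · exact le_top
  have hb2 : (k + σ) / (k + s) < b.toReal := (ENNReal.ofReal_lt_iff_lt_toReal hnn hbt).1 hb
  have h2 := dim_bounded hσ hB hs hk M γ hb2
  rwa [ENNReal.ofReal_toReal hbt] at h2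

/-- **Main theorem.** The exceptional set has dimension at most `(k + σ) / (k + s)`. -/
theorem dim_close {B : Set ℕ} {σ s : ℝ} (hσ : 0 ≤ σ) (hB : Sparse B σ) (hs : σ < s) {k : ℕ} (hk : 1 ≤ k) {Γ : Set ℝ}
    (hΓ : Γ.Countable) :
    dimH {α : ℝ | ∃ γ ∈ Γ, (Close k s α γ ∩ B).Infinite} ≤ ENNReal.ofReal ((k + σ) / (k + s)) := by
  have h1 : {α : ℝ | ∃ γ ∈ Γ, (Close k s α γ ∩ B).Infinite} = ⋃ γ ∈ Γ, {α : ℝ | (Close k s α γ ∩ B).Infinite} := by
    ext α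
    simp
  rw [h1, dimH_bUnion hΓ]
  exact iSup₂_le fun γ _ => dim_one hσ hB hs hk γ

end Pool.Agent.N405.DA
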