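import Mathlib

set_option autoImplicit false

/-! Heights near `G q`, `G` expanding (copied from `Pool.Agent.N733.TG.K` of helper733, in order to have no further
imports). -/

namespace Pool.Agent.N405.DA

open Finset Classical

/-- the steps of `G` are at least a positive constant, and `G` grows at most like `v ^ d`, `d ≥ 1` -/
structure Expanding (G : ℕ → ℝ) (d : ℝ) : Prop where
  one_le : 1 ≤ d
  step : ∃ a : ℝ, 0 < a ∧ ∀ v : ℕ, 1 ≤ v → a ≤ G (v + 1) - G v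
  growth : ∃ C : ℝ, ∀ v : ℕ, 1 ≤ v → G v ≤ C * (v : ℝ) ^ d

lemma step_sum {G : ℕ → ℝ} {a : ℝ} (h : ∀ v : ℕ, 1 ≤ v → a ≤ G (v + 1) - G v) {u v : ℕ} (hu : 1 ≤ u) (huv : u ≤ v) :
    a * ((v - u : ℕ) : ℝ) ≤ G v - G u := by
  induction v, huv using Nat.le_induction with
  | base => simp
  | succ n hn ih =>
    have h1 := h n (hu.trans hn)
    have h2 : ((n + 1 - u : ℕ) : ℝ) = ((n - u : ℕ) : ℝ) + 1 := by
      rw [show n + 1 - u = (n - u) + 1 by omega]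
      push_cast
      ring
    rw [h2]
    linarith

/-- the numbers `v` such that `G v` is close to the height of an element of `S` -/
def NearG {T : Type*} (S : Set T) (h : T → ℝ) (G : ℕ → ℝ) (κ : ℝ) : Set ℕ := {v | ∃ t ∈ S, |h t - G v| ≤ (v : ℝ) ^ κ}

lemma nearG_count {T : Type*} (S : Set T) (h : T → ℝ) {G : ℕ → ℝ} {d : ℝ} (hG : Expanding G d) {s κ : ℝ} (hs : 0 ≤ s)
    (hκ : 0 ≤ κ) (hκ1 : κ ≤ 1)
    (hS : ∃ C : ℝ, ∀ X : ℝ, 1 ≤ X →
      {t | t ∈ S ∧ h t ≤ X}.Finite ∧ ({t | t ∈ S ∧ h t ≤ X}.ncard : ℝ) ≤ C * X ^ s) :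
    ∃ K : ℝ, ∀ X : ℕ, 1 ≤ X → (((Icc 1 X).filter (fun v => v ∈ NearG S h G κ)).card : ℝ) ≤
      K * (X : ℝ) ^ (d * s + κ) := by
  obtain ⟨hd, ⟨a, ha, hstep⟩, ⟨C₁, hC₁⟩⟩ := hG
  obtain ⟨C, hC⟩ := hS
  obtain ⟨C₂, hC₂⟩ : ∃ C₂ : ℝ, C₂ = |C₁| + 1 := ⟨_, rfl⟩
  have hC₂1 : 1 ≤ C₂ := by rw [hC₂]; linarith [abs_nonneg C₁]
  refine ⟨|C| * C₂ ^ s * (2 / a + 1), fun X hX => ?_⟩
  have hX1 : (1 : ℝ) ≤ X := by exact_mod_cast hX
  obtain ⟨Z, hZ⟩ : ∃ Z : ℝ, Z = C₂ * (X : ℝ) ^ d := ⟨_, rfl⟩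
  have hXd : (1 : ℝ) ≤ (X : ℝ) ^ d := Real.one_le_rpow hX1 (by linarith)
  have hZ1 : 1 ≤ Z := by
    rw [hZ]
    exact one_le_mul_of_one_le_of_one_le hC₂1 hXd
  obtain ⟨hfin, hcard⟩ := hC Z hZ1
  have hXκ : (1 : ℝ) ≤ (X : ℝ) ^ κ := Real.one_le_rpow hX1 hκ
  obtain ⟨W, hW⟩ : ∃ W : T → Finset ℕ, W = fun t : T => (Icc 1 X).filter (fun v : ℕ => |h t - G v| ≤ (X : ℝ) ^ κ) :=
    ⟨_, rfl⟩
  have hsub : (Icc 1 X).filter (fun v => v ∈ NearG S h G κ) ⊆ hfin.toFinset.biUnion W := by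
    intro v hv
    rw [mem_filter, mem_Icc] at hv
    obtain ⟨⟨hv1, hvX⟩, t, htS, ht⟩ := hv
    have hv1' : (1 : ℝ) ≤ v := by exact_mod_cast hv1
    have hvX' : (v : ℝ) ≤ X := by exact_mod_cast hvX
    have e1 : (v : ℝ) ^ κ ≤ (X : ℝ) ^ κ := Real.rpow_le_rpow (by linarith) hvX' hκ
    rw [mem_biUnion]
    refine ⟨t, ?_, ?_⟩
    · rw [Set.Finite.mem_toFinset]
      refine ⟨htS, ?_⟩
      have e3 := (abs_le.1 ht).2
      have e4 : G v ≤ |C₁| * (X : ℝ) ^ d := by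
        calc G v ≤ C₁ * (v : ℝ) ^ d := hC₁ v hv1
          _ ≤ |C₁| * (v : ℝ) ^ d := mul_le_mul_of_nonneg_right (le_abs_self _) (by positivity)
          _ ≤ |C₁| * (X : ℝ) ^ d := mul_le_mul_of_nonneg_left
              (Real.rpow_le_rpow (by linarith) hvX' (by linarith)) (abs_nonneg _)
      have e5 : (X : ℝ) ^ κ ≤ (X : ℝ) ^ d := Real.rpow_le_rpow_of_exponent_le hX1 (by linarith)
      rw [hZ, hC₂]
      linarith
    · rw [hW, mem_filter, mem_Icc]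
      exact ⟨⟨hv1, hvX⟩, ht.trans e1⟩
  have hTc : ∀ t : T, ((W t).card : ℝ) ≤ (2 / a + 1) * (X : ℝ) ^ κ := by
    intro t
    have h0 : (0 : ℝ) ≤ 2 * (X : ℝ) ^ κ / a := by positivity
    rcases (W t).eq_empty_or_nonempty with he | he
    · rw [he]
      simp only [card_empty, Nat.cast_zero]
      positivity
    · obtain ⟨v0, hv0⟩ : ∃ v0, v0 = (W t).min' he := ⟨_, rfl⟩
      have hv0m : v0 ∈ W t := by rw [hv0]; exact min'_mem _ _
      have hs' : W t ⊆ Icc v0 (v0 + ⌊2 * (X : ℝ) ^ κ / a⌋₊) := by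
        intro v hv
        have h1 : v0 ≤ v := by rw [hv0]; exact min'_le _ _ hv
        rw [mem_Icc]
        refine ⟨h1, ?_⟩
        rw [hW, mem_filter, mem_Icc] at hv hv0m
        have h2 := abs_le.1 hv.2
        have h3 := abs_le.1 hv0m.2
        have h4 : ((v - v0 : ℕ) : ℝ) ≤ 2 * (X : ℝ) ^ κ / a := by
          rw [le_div_iff₀ ha]
          have := step_sum hstep hv0m.1.1 h1
          linarith [h2.1, h3.2]
        have := Nat.le_floor h4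
        omega
      have h5 := card_le_card hs'
      rw [Nat.card_Icc] at h5
      have h6 : (((W t).card : ℕ) : ℝ) ≤ (⌊2 * (X : ℝ) ^ κ / a⌋₊ : ℝ) + 1 := by
        have : (W t).card ≤ ⌊2 * (X : ℝ) ^ κ / a⌋₊ + 1 := by omega
        exact_mod_cast this
      have h7 := Nat.floor_le h0
      calc ((W t).card : ℝ) ≤ (⌊2 * (X : ℝ) ^ κ / a⌋₊ : ℝ) + 1 := h6
        _ ≤ 2 * (X : ℝ) ^ κ / a + (X : ℝ) ^ κ := by linarith
        _ = (2 / a + 1) * (X : ℝ) ^ κ := by ring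
  have h1 : (((Icc 1 X).filter (fun v => v ∈ NearG S h G κ)).card : ℝ) ≤ ∑ t ∈ hfin.toFinset, ((W t).card : ℝ) := by
    have := (card_le_card hsub).trans card_biUnion_le
    exact_mod_cast this
  refine h1.trans ((sum_le_sum (fun t _ => hTc t)).trans ?_)
  rw [sum_const, nsmul_eq_mul, ← Set.ncard_eq_toFinset_card _ hfin]
  have h3 : Z ^ s = C₂ ^ s * (X : ℝ) ^ (d * s) := by
    rw [hZ, Real.mul_rpow (by positivity) (by positivity), ← Real.rpow_mul (by positivity)]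
  calc ({t | t ∈ S ∧ h t ≤ Z}.ncard : ℝ) * ((2 / a + 1) * (X : ℝ) ^ κ)
      ≤ (|C| * (C₂ ^ s * (X : ℝ) ^ (d * s))) * ((2 / a + 1) * (X : ℝ) ^ κ) := by
        apply mul_le_mul_of_nonneg_right _ (by positivity)
        rw [← h3]
        exact hcard.trans (mul_le_mul_of_nonneg_right (le_abs_self _) (by positivity))
    _ = (|C| * C₂ ^ s * (2 / a + 1)) * ((X : ℝ) ^ (d * s) * (X : ℝ) ^ κ) := by ring
    _ = _ := by rw [← Real.rpow_add (by linarith)]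

/-- `G v = α v ^ d` is expanding for `α > 0`, `d ≥ 1` -/
theorem expanding_pow {α d : ℝ} (hα : 0 < α) (hd : 1 ≤ d) : Expanding (fun v => α * (v : ℝ) ^ d) d where
  one_le := hd
  step := ⟨α, hα, fun v hv => by
    have hv1 : (1 : ℝ) ≤ v := by exact_mod_cast hv
    have h1 : (v : ℝ) ^ d + 1 ≤ ((v : ℝ) + 1) ^ d := by
      have e1 : (v : ℝ) ^ d = (v : ℝ) ^ (d - 1) * v := by
        rw [← Real.rpow_add_one (by linarith)]
        ring_nf
      have e2 : ((v : ℝ) + 1) ^ d = ((v : ℝ) + 1) ^ (d - 1) * (v + 1) := by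
        rw [← Real.rpow_add_one (by linarith)]
        ring_nf
      have e3 : (v : ℝ) ^ (d - 1) ≤ ((v : ℝ) + 1) ^ (d - 1) := Real.rpow_le_rpow (by linarith) (by linarith) (by linarith)
      have e4 : 1 ≤ ((v : ℝ) + 1) ^ (d - 1) := Real.one_le_rpow (by linarith) (by linarith)
      rw [e1, e2]
      nlinarith
    push_cast
    nlinarith⟩
  growth := ⟨α, fun v _ => le_rfl⟩

end Pool.Agent.N405.DA
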