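import Pool.Agent.N405.DA.Conv
import Pool.Agent.N405.DA.Near

set_option autoImplicit false

/-! **Tool DA** (helper405). Denominators of good rational approximations keep away from sets with a power saving.

`Keeps σ P` says: (1) for all `k ≥ 1`, `s > σ` and every countable set `Γ` of reals, the set of the real numbers `α` such that
for some `γ ∈ Γ` infinitely many natural numbers `q` with `‖α q ^ k - γ‖ ≤ q ^ (-s)` do not satisfy `P q` has Hausdorff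
dimension at most `(k + σ) / (k + s) < 1`; (2) the set of the real numbers `α` such that infinitely many convergents of the
continued fraction of `α` have a denominator `q` which does not satisfy `P q` has Hausdorff dimension at most `(1 + σ) / 2`. -/

namespace Pool.Agent.N405.DA

open Finset Filter Topology Classical
open scoped ENNReal

/-- see above -/
def Keeps (σ : ℝ) (P : ℕ → Prop) : Prop :=
  (∀ k : ℕ, 1 ≤ k → ∀ s : ℝ, σ < s → ∀ Γ : Set ℝ, Γ.Countable →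
    dimH {α : ℝ | ∃ γ ∈ Γ, {q : ℕ | (∃ a : ℤ, |α * (q : ℝ) ^ k - a - γ| ≤ (q : ℝ) ^ (-s)) ∧ ¬ P q}.Infinite} ≤
      ENNReal.ofReal ((k + σ) / (k + s))) ∧
  dimH {α : ℝ | {n : ℕ | ∃ q : ℕ, (GenContFract.of α).dens n = (q : ℝ) ∧ ¬ P q}.Infinite} ≤ ENNReal.ofReal ((1 + σ) / 2)

/-- monotonicity -/
theorem Keeps.mono {P Q : ℕ → Prop} {σ : ℝ} (h : Keeps σ P) (hPQ : ∀ q, P q → Q q) : Keeps σ Q := by
  constructor
  · intro k hk s hs Γ hΓ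
    refine le_trans (dimH_mono ?_) (h.1 k hk s hs Γ hΓ)
    rintro α ⟨γ, hγ, hα⟩
    exact ⟨γ, hγ, hα.mono fun q hq => ⟨hq.1, fun h2 => hq.2 (hPQ q h2)⟩⟩
  · refine le_trans (dimH_mono ?_) h.2
    intro α hα
    refine hα.mono ?_
    rintro n ⟨q, h3, h4⟩
    exact ⟨q, h3, fun h2 => h4 (hPQ q h2)⟩

/-- the basic form: a set of natural numbers -/
theorem keeps_of_sparse {P : ℕ → Prop} {σ : ℝ} (hσ : 0 ≤ σ) (hσ1 : σ < 1) (hB : Sparse {q | ¬ P q} σ) : Keeps σ P := by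
  obtain ⟨h1, h2⟩ := main hσ hσ1 hB
  constructor
  · intro k hk s hs Γ hΓ
    exact h1 k hk s hs Γ hΓ
  · refine le_trans (dimH_mono ?_) h2
    intro α hα
    refine hα.mono ?_
    rintro n ⟨q, h3, h4⟩
    exact ⟨q, h4, h3⟩

/-- families with heights: for the denominators `q` every `t` with `Adm t` and a height near `G q` is good -/
theorem keep_good {T : Type*} (Adm Good : T → Prop) (h : T → ℝ) {G : ℕ → ℝ} {d : ℝ} (hG : Expanding G d) {s κ : ℝ}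
    (hs : 0 ≤ s) (hκ : 0 ≤ κ) (h1 : d * s + κ < 1)
    (hS : ∀ ε : ℝ, 0 < ε → ∃ C : ℝ, ∀ X : ℝ, 1 ≤ X →
      {t | (Adm t ∧ ¬ Good t) ∧ h t ≤ X}.Finite ∧ ({t | (Adm t ∧ ¬ Good t) ∧ h t ≤ X}.ncard : ℝ) ≤ C * X ^ (s + ε)) :
    Keeps (d * s + κ) (fun q => ∀ t, Adm t → |h t - G q| ≤ (q : ℝ) ^ κ → Good t) := by
  have hd := hG.one_le
  have hd0 : 0 < d := by linarith
  refine keeps_of_sparse (by positivity) h1 fun ε hε => ?_
  obtain ⟨K, hK⟩ := nearG_count {t | Adm t ∧ ¬ Good t} h hG (s := s + ε / d) (κ := κ) (by positivity) hκ (by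
    have : 0 ≤ d * s := by positivity
    linarith) (hS (ε / d) (by positivity))
  refine ⟨K, fun X hX => ?_⟩
  have h2 := hK X hX
  have e1 : d * (s + ε / d) + κ = d * s + κ + ε := by
    field_simp
    ring
  rw [e1] at h2
  refine le_trans (le_of_eq ?_) h2
  congr 1
  rw [← Set.ncard_coe_finset]
  congr 1
  ext m
  rw [Finset.mem_coe, Finset.mem_filter, Finset.mem_Icc]
  constructor
  · rintro ⟨a1, a2, a3⟩
    have a4 : ¬ ∀ t, Adm t → |h t - G m| ≤ (m : ℝ) ^ κ → Good t := a3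
    push Not at a4
    obtain ⟨t, b1, b2, b3⟩ := a4
    exact ⟨⟨a1, a2⟩, t, ⟨b1, b3⟩, b2⟩
  · rintro ⟨⟨a1, a2⟩, t, ⟨b1, b3⟩, b2⟩
    refine ⟨a1, a2, fun a4 => ?_⟩
    exact b3 (a4 t b1 b2)

/-- the same for sets -/
theorem keep_windows {T : Type*} (S : Set T) (h : T → ℝ) {G : ℕ → ℝ} {d : ℝ} (hG : Expanding G d) {s κ : ℝ} (hs : 0 ≤ s)
    (hκ : 0 ≤ κ) (h1 : d * s + κ < 1)
    (hS : ∀ ε : ℝ, 0 < ε → ∃ C : ℝ, ∀ X : ℝ, 1 ≤ X →
      {t | t ∈ S ∧ h t ≤ X}.Finite ∧ ({t | t ∈ S ∧ h t ≤ X}.ncard : ℝ) ≤ C * X ^ (s + ε)) :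
    Keeps (d * s + κ) (fun q => ¬ ∃ t ∈ S, |h t - G q| ≤ (q : ℝ) ^ κ) := by
  have h2 := keep_good (fun _ => True) (fun t => t ∉ S) h hG hs hκ h1 (by
    intro ε hε
    obtain ⟨C, hC⟩ := hS ε hε
    refine ⟨C, fun X hX => ?_⟩
    have e : {t | (True ∧ ¬ t ∉ S) ∧ h t ≤ X} = {t | t ∈ S ∧ h t ≤ X} := by
      ext t
      simp
    rw [e]
    exact hC X hX)
  have e : (fun q : ℕ => ∀ t, True → |h t - G q| ≤ (q : ℝ) ^ κ → t ∉ S) =
      (fun q : ℕ => ¬ ∃ t ∈ S, |h t - G q| ≤ (q : ℝ) ^ κ) := by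
    funext q
    apply propext
    push Not
    exact ⟨fun h3 t ht => lt_of_not_ge fun h4 => h3 t trivial h4 ht, fun h3 t _ h4 ht => absurd h4 (not_le.2 (h3 t ht))⟩
  rw [e] at h2
  exact h2

/-- the same for natural numbers (all `n ≥ 1` near `G q` with `Adm n` are good) -/
theorem keep_good_nat (Adm Good : ℕ → Prop) {G : ℕ → ℝ} {d : ℝ} (hG : Expanding G d) {s κ : ℝ} (hs : 0 ≤ s) (hκ : 0 ≤ κ)
    (h1 : d * s + κ < 1)
    (hP : ∀ ε : ℝ, 0 < ε → ∃ C : ℝ, ∀ X : ℕ, 1 ≤ X →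
      ({t : ℕ | 1 ≤ t ∧ t ≤ X ∧ Adm t ∧ ¬ Good t}.ncard : ℝ) ≤ C * (X : ℝ) ^ (s + ε)) :
    Keeps (d * s + κ) (fun q => ∀ n : ℕ, 1 ≤ n → Adm n → |(n : ℝ) - G q| ≤ (q : ℝ) ^ κ → Good n) := by
  have h2 := keep_good (fun n : ℕ => 1 ≤ n ∧ Adm n) Good (fun n : ℕ => (n : ℝ)) hG hs hκ h1 (by
    intro ε hε
    obtain ⟨C, hC⟩ := hP ε hε
    refine ⟨|C|, fun X hX => ?_⟩
    have hX1 : 1 ≤ ⌊X⌋₊ := Nat.le_floor (by exact_mod_cast hX)
    have e : {t : ℕ | ((1 ≤ t ∧ Adm t) ∧ ¬ Good t) ∧ (t : ℝ) ≤ X} =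
        {t : ℕ | 1 ≤ t ∧ t ≤ ⌊X⌋₊ ∧ Adm t ∧ ¬ Good t} := by
      ext t
      simp only [Set.mem_ofPred_eq]
      rw [← Nat.le_floor_iff (by linarith)]
      tauto
    rw [e]
    refine ⟨(Set.finite_Icc 1 ⌊X⌋₊).subset fun t ht => ⟨ht.1, ht.2.1⟩, ?_⟩
    refine (hC _ hX1).trans ?_
    refine (mul_le_mul_of_nonneg_right (le_abs_self _) (by positivity)).trans ?_
    exact mul_le_mul_of_nonneg_left (Real.rpow_le_rpow (Nat.cast_nonneg _) (Nat.floor_le (by linarith)) (by linarith))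
      (abs_nonneg _))
  have e : (fun q : ℕ => ∀ n : ℕ, 1 ≤ n ∧ Adm n → |(n : ℝ) - G q| ≤ (q : ℝ) ^ κ → Good n) =
      (fun q : ℕ => ∀ n : ℕ, 1 ≤ n → Adm n → |(n : ℝ) - G q| ≤ (q : ℝ) ^ κ → Good n) := by
    funext q
    apply propext
    constructor
    · intro h3 n a b
      exact h3 n ⟨a, b⟩
    · rintro h3 n ⟨a, b⟩
      exact h3 n a b
  rw [e] at h2
  exact h2

/-- the simplest form: the property of the number `q` itself -/
theorem keep_self (P : ℕ → Prop) {s : ℝ} (hs : 0 ≤ s) (h1 : s < 1)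
    (hP : ∀ ε : ℝ, 0 < ε → ∃ C : ℝ, ∀ X : ℕ, 1 ≤ X →
      ({t : ℕ | 1 ≤ t ∧ t ≤ X ∧ ¬ P t}.ncard : ℝ) ≤ C * (X : ℝ) ^ (s + ε)) : Keeps s P :=
  keeps_of_sparse hs h1 hP

end Pool.Agent.N405.DA
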